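import Pool.Agent.ACK.StmtsC
import Pool.Agent.Helper65_ACK.GPB

set_option autoImplicit false

/-!
# ACK, row SUR: every circle of the opposite state contains a gap edge
-/

namespace Pool.Agent.ACK.H35

open Pool.Agent.ACK Pool.Agent.ACK.C

theorem tk_eq (b : List Tk) (k : ℕ) (hk : k < b.length) : tk b k = b[k] := by
  unfold tk
  rw [List.getD_eq_getElem?_getD, List.getElem?_eq_getElem hk]
  rfl

theorem bk_len (C : ℕ → List ℕ) (t : Tk) : (bk C t).length = (C t.1).length := by
  unfold bk
  split_ifs
  · rw [List.length_reverse]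
  · rfl

/-- `L (k + 1) = L k + |block k|` -/
theorem L_succ (C : ℕ → List ℕ) (b : List Tk) (k : ℕ) (hk : k < b.length) :
    (BL C (b.take (k + 1))).length = (BL C (b.take k)).length + (C (tk b k).1).length := by
  have h1 : b.take (k + 1) = b.take k ++ [b[k]] := by
    rw [List.take_append_getElem]
  rw [h1, H65.BL_append, List.length_append, tk_eq b k hk]
  have h3 : BL C [b[k]] = bk C b[k] := by
    unfold BL
    rw [List.flatMap_singleton]
  rw [h3, bk_len]

/-- the block of a position -/
theorem find_block (L : ℕ → ℕ) (v : ℕ) (hL0 : L 0 = 0) :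
    ∀ n, v < L n → ∃ z < n, L z ≤ v ∧ v < L (z + 1) := by
  intro n
  induction n with
  | zero => intro h; omega
  | succ n ih =>
    intro h
    by_cases h1 : v < L n
    · obtain ⟨z, hz, h2⟩ := ih h1
      exact ⟨z, by omega, h2⟩
    · exact ⟨n, by omega, by omega, h⟩

theorem cover (c : ℕ) (C : ℕ → List ℕ) (b : List Tk) (hc : 1 ≤ c) (_ : CW C b)
    (hl : (BL C b).length = 2 * c) (hb : b.length = 12) (p : ZMod (2 * c)) :
    ∃ z < 12, ∃ j ≤ (C (tk b z).1).length, p = gp c C b ((z + 11) % 12) + (j : ZMod (2 * c)) := by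
  have : NeZero (2 * c) := ⟨by omega⟩
  have hv : p.val < 2 * c := ZMod.val_lt p
  have hL12 : (BL C (b.take 12)).length = 2 * c := by
    rw [← hb, List.take_length, hl]
  obtain ⟨z, hz, h1, h2⟩ := find_block (fun k => (BL C (b.take k)).length) p.val
    (by simp [BL]) 12 (by rw [hL12]; exact hv)
  have h3 := L_succ C b z (by omega)

  refine ⟨z, hz, p.val - (BL C (b.take z)).length + 1, by omega, ?_⟩
  have hp : p = ((p.val : ℕ) : ZMod (2 * c)) := (ZMod.natCast_zmod_val p).symm
  have hg : gp c C b ((z + 11) % 12) = ((BL C (b.take z)).length : ZMod (2 * c)) - 1 := by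
    unfold gp
    rcases Nat.eq_zero_or_pos z with h0 | h0
    · subst h0
      have e1 : (0 + 11) % 12 + 1 = 12 := by norm_num
      rw [e1, hL12]
      have e2 : (BL C (b.take 0)).length = 0 := by simp [BL]
      rw [e2, Nat.cast_zero, ZMod.natCast_self]
    · have e1 : (z + 11) % 12 + 1 = z := by omega
      rw [e1]
  rw [hg, Nat.cast_add, Nat.cast_sub h1, Nat.cast_one]
  conv_lhs => rw [hp]
  ring

/-- the other passage of the chain -/
theorem partner (b : List Tk) (hw : Gw (b.map Prod.fst)) (z : ℕ) (hz : z < b.length) :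
    ∃ z' < b.length, z' ≠ z ∧ (tk b z').1 = (tk b z).1 := by
  have h1 : (b.map Prod.fst).count (b[z]).1 = 2 :=
    hw _ (List.mem_map_of_mem (List.getElem_mem hz))
  have h2 : b = b.take z ++ b[z] :: b.drop (z + 1) := by
    rw [← List.drop_eq_getElem_cons hz, List.take_append_drop]
  have h3 : (b.map Prod.fst).count (b[z]).1 =
      ((b.take z).map Prod.fst).count (b[z]).1 + (((b.drop (z + 1)).map Prod.fst).count (b[z]).1 + 1) := by
    have h4 : b.map Prod.fst = (b.take z).map Prod.fst ++ (b[z]).1 :: (b.drop (z + 1)).map Prod.fst := by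
      conv_lhs => rw [h2]
      rw [List.map_append, List.map_cons]
    rw [h4, List.count_append, List.count_cons_self]
  rw [h1] at h3
  rw [tk_eq b z hz]
  by_cases h5 : 0 < ((b.take z).map Prod.fst).count (b[z]).1
  · have h6 := List.count_pos_iff.mp h5
    obtain ⟨t, ht, ht1⟩ := List.mem_map.mp h6
    obtain ⟨i, hi, hi1⟩ := List.getElem_of_mem ht
    rw [List.length_take] at hi
    have hi' : i < b.length := by omega
    refine ⟨i, hi', by omega, ?_⟩
    rw [tk_eq b i hi', ← ht1, ← hi1, List.getElem_take]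
  · have h7 : 0 < ((b.drop (z + 1)).map Prod.fst).count (b[z]).1 := by omega
    have h6 := List.count_pos_iff.mp h7
    obtain ⟨t, ht, ht1⟩ := List.mem_map.mp h6
    obtain ⟨i, hi, hi1⟩ := List.getElem_of_mem ht
    rw [List.length_drop] at hi
    have hi' : z + 1 + i < b.length := by omega
    refine ⟨z + 1 + i, hi', by omega, ?_⟩
    rw [tk_eq b _ hi', ← ht1, ← hi1, List.getElem_drop]

/-- **SUR** -/
theorem sur (hLet : LetStmt) (hLds : LdsStmt) : SurStmt := by
  intro c C b s hS p
  have hcw := hS.cw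
  have hb := hS.len
  have hl : (BL C b).length = 2 * c := hS.kn.len
  have hc : 1 ≤ c := by
    have h1 := H65.L_step C b hcw.ne 0 (by omega)
    have h2 := H65.L_le C b (0 + 1)
    omega
  set K : ZMod (2 * c) → Quot (CR (wd c (BL C b)) (op s)) := cl (wd c (BL C b)) (op s) with hK
  -- main claim for a pair of passages
  have key : ∀ x y, x < y → y < 12 → (tk b x).1 = (tk b y).1 →
      ∀ j ≤ (C (tk b x).1).length,
        (∃ k < 12, K (gp c C b ((x + 11) % 12) + (j : ZMod (2 * c))) = K (gp c C b k)) ∧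
        (∃ k < 12, K (gp c C b ((y + 11) % 12) + (j : ZMod (2 * c))) = K (gp c C b k)) := by
    intro x y hxy hy he
    have hL := hLds c C b s hS x y hxy hy he
    set a : ℕ := (C (tk b x).1).length with ha
    by_cases hd : (tk b x).2 = (tk b y).2
    · intro j
      induction j with
      | zero =>
        intro _
        refine ⟨⟨(x + 11) % 12, by omega, by rw [Nat.cast_zero, add_zero]⟩,
          ⟨(y + 11) % 12, by omega, by rw [Nat.cast_zero, add_zero]⟩⟩
      | succ j ih =>
        intro hj
        obtain ⟨⟨k1, hk1, e1⟩, ⟨k2, hk2, e2⟩⟩ := ih (by omega)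
        obtain ⟨f1, f2⟩ := (hL j (by omega)).1 hd
        refine ⟨⟨k2, hk2, ?_⟩, ⟨k1, hk1, ?_⟩⟩
        · rw [Nat.cast_add, Nat.cast_one]
          exact f2.symm.trans e2
        · rw [Nat.cast_add, Nat.cast_one]
          exact f1.symm.trans e1
    · have hya : gp c C b y = gp c C b ((y + 11) % 12) + (a : ZMod (2 * c)) := by
        have h1 := (hLet c C b hc hcw hl ((y + 11) % 12) (by omega)).2.1
        rw [hb] at h1
        have h2 : ((y + 11) % 12 + 1) % 12 = y := by omega
        rw [h2, bk_len, ← he] at h1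
        exact h1
      have hx : ∀ j, (j ≤ a → ∃ k < 12,
          K (gp c C b ((x + 11) % 12) + (j : ZMod (2 * c))) = K (gp c C b k)) ∧
          (j + 1 ≤ a → ∃ k < 12,
          K (gp c C b ((x + 11) % 12) + ((j + 1 : ℕ) : ZMod (2 * c))) = K (gp c C b k)) := by
        intro j
        induction j with
        | zero =>
          refine ⟨fun _ => ⟨(x + 11) % 12, by omega, by rw [Nat.cast_zero, add_zero]⟩, fun h0 => ?_⟩
          obtain ⟨_, f2⟩ := (hL 0 (by omega)).2 hd
          refine ⟨y, hy, ?_⟩
          rw [hya]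
          rw [Nat.sub_zero] at f2
          rw [Nat.cast_add, Nat.cast_one]
          exact f2
        | succ j ih =>
          refine ⟨ih.2, fun h0 => ?_⟩
          obtain ⟨k, hk, e⟩ := ih.1 (by omega)
          obtain ⟨f1, _⟩ := (hL j (by omega)).2 hd
          obtain ⟨_, f2⟩ := (hL (j + 1) (by omega)).2 hd
          refine ⟨k, hk, ?_⟩
          have h3 : a - 1 - j = a - (j + 1) := by omega
          rw [Nat.cast_add, Nat.cast_one]
          rw [h3] at f1
          exact f2.trans (f1.symm.trans e)
      intro j hj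
      refine ⟨(hx j).1 hj, ?_⟩
      rcases Nat.lt_or_ge j a with hlt | hge
      · obtain ⟨k, hk, e⟩ := (hx (a - 1 - j)).1 (by omega)
        obtain ⟨f1, _⟩ := (hL (a - 1 - j) (by omega)).2 hd
        have h3 : a - 1 - (a - 1 - j) = j := by omega
        rw [h3] at f1
        exact ⟨k, hk, f1.symm.trans e⟩
      · have h3 : j = a := by omega
        rw [h3]
        exact ⟨y, hy, by rw [hya]⟩
  obtain ⟨z, hz, j, hj, hp⟩ := cover c C b hc hcw hl hb p
  obtain ⟨z', hz', hne, he⟩ := partner b hcw.tw z (by omega)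
  rw [hb] at hz'
  rw [hp]
  rcases Nat.lt_or_ge z z' with h1 | h1
  · exact (key z z' h1 hz' he.symm j hj).1
  · exact (key z' z (by omega) hz he j (by rw [he]; exact hj)).2

end Pool.Agent.ACK.H35
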